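import Pool.Agent.H874.CS.Final

/-!
# The multihomogeneous part of a Cartwright-Sturmfels ideal is Cartwright-Sturmfels
-/

namespace Pool.Agent.Results.MP_293f2a_ag.HomogeneousPartIsCS

open Pool.Agent.H874.CSDefs

/-- Positive answer to Q2: if `I` is a Cartwright-Sturmfels ideal for the standard multigrading
given by `c`, and `c'` gives a finer standard multigrading, then the ideal `I^*` generated by the
elements of `I` homogeneous for the finer grading is a Cartwright-Sturmfels ideal. -/
theorem result {σ ι κ K : Type*} [Field K] [Infinite K] [Fintype σ] [DecidableEq σ] [Fintype ι]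
    [DecidableEq ι] [Fintype κ] [DecidableEq κ] (c : σ → ι) (c' : σ → κ)
    (hfine : ∀ i j, c' i = c' j → c i = c j) (I : Ideal (MvPolynomial σ K))
    (m₀ : MonomialOrder σ) (hI : IsCS c m₀ I) (m : MonomialOrder σ) :
    IsCS c' m (idealStar c' I) :=
  Pool.Agent.H874.CS.final_star hfine hI m

end Pool.Agent.Results.MP_293f2a_ag.HomogeneousPartIsCS
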